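import Pool.Agent.Helper793.FConv

set_option autoImplicit false
set_option linter.unusedSectionVars false

open MeasureTheory Metric Set Filter Topology
open scoped ENNReal NNReal
open Pool.Agent.Helper793.QEig Pool.Agent.Helper793.Sob
open Pool.Agent.Helper793.FEig (FP IsD Spec SpecLS Sphere genus HasOddMap lamLS energy normLq cls
  cls_mem cls_neg cls_tendsto isEig_of isD_of_mem normLq_coe energy_coe ConvD IsCompactD)

namespace Pool.Agent.Results.MP_eb4995_an.LSNotAll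

variable {N : ℕ}

variable {q : ℝ≥0} [Fact (1 ≤ (q : ℝ≥0∞))]

/-! ### disjoint unions -/

theorem isTest_cut {Ω₁ Ω₂ : Set (EuclideanSpace ℝ (Fin N))} (h2 : IsOpen Ω₂)
    {χ φ : EuclideanSpace ℝ (Fin N) → ℝ} (hχ : ContDiff ℝ ((⊤ : ℕ∞) : WithTop ℕ∞) χ)
    (hχ0 : ∀ x ∈ Ω₂, χ x = 0) (hφ : IsTest (Ω₁ ∪ Ω₂) φ) : IsTest Ω₁ (fun x => χ x * φ x) := by
  refine ⟨hχ.mul hφ.1, hφ.2.1.mul_left, ?_⟩
  have h3 : tsupport (fun x => χ x * φ x) ⊆ tsupport φ :=
    closure_mono (Function.support_mul_subset_right _ _)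
  have h4 : tsupport (fun x => χ x * φ x) ⊆ Ω₂ᶜ := by
    apply closure_minimal _ h2.isClosed_compl
    intro x hx hx2
    apply hx
    simp only
    rw [hχ0 x hx2, zero_mul]
  intro x hx
  rcases hφ.2.2 (h3 hx) with h | h
  · exact h
  · exact absurd h (h4 hx)

theorem split_pointwise {Ω₁ Ω₂ : Set (EuclideanSpace ℝ (Fin N))} (h1 : IsOpen Ω₁) (h2 : IsOpen Ω₂)
    {χ φ : EuclideanSpace ℝ (Fin N) → ℝ}
    (hχ1 : ∀ x ∈ Ω₁, χ x = 1) (hχ0 : ∀ x ∈ Ω₂, χ x = 0) (hφ : IsTest (Ω₁ ∪ Ω₂) φ)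
    (x : EuclideanSpace ℝ (Fin N)) :
    (φ =ᶠ[𝓝 x] (fun x => χ x * φ x) ∧ (fun x => (1 - χ x) * φ x) =ᶠ[𝓝 x] fun _ => 0) ∨
    (φ =ᶠ[𝓝 x] (fun x => (1 - χ x) * φ x) ∧ (fun x => χ x * φ x) =ᶠ[𝓝 x] fun _ => 0) := by
  by_cases hx : x ∈ tsupport φ
  · rcases hφ.2.2 hx with h | h
    · left
      constructor
      · filter_upwards [h1.mem_nhds h] with y hy
        rw [hχ1 y hy, one_mul]
      · filter_upwards [h1.mem_nhds h] with y hy
        rw [hχ1 y hy, sub_self, zero_mul]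
    · right
      constructor
      · filter_upwards [h2.mem_nhds h] with y hy
        rw [hχ0 y hy, sub_zero, one_mul]
      · filter_upwards [h2.mem_nhds h] with y hy
        rw [hχ0 y hy, zero_mul]
  · left
    have h3 : φ =ᶠ[𝓝 x] 0 := notMem_tsupport_iff_eventuallyEq.mp hx
    constructor
    · filter_upwards [h3] with y hy
      rw [hy, Pi.zero_apply, mul_zero]
    · filter_upwards [h3] with y hy
      rw [hy, Pi.zero_apply, mul_zero]

theorem union_ineq {Ω₁ Ω₂ : Set (EuclideanSpace ℝ (Fin N))} (h1 : IsOpen Ω₁) (h2 : IsOpen Ω₂)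
    {χ : EuclideanSpace ℝ (Fin N) → ℝ} (hχ : ContDiff ℝ ((⊤ : ℕ∞) : WithTop ℕ∞) χ)
    (hχ1 : ∀ x ∈ Ω₁, χ x = 1) (hχ0 : ∀ x ∈ Ω₂, χ x = 0) (hq : 2 ≤ q)
    {c : ℝ} (hc : 0 ≤ c) (hc1 : ∀ p ∈ D012 q Ω₁, c * ‖p.1‖ ^ 2 ≤ ‖p.2‖ ^ 2)
    (hc2 : ∀ p ∈ D012 q Ω₂, c * ‖p.1‖ ^ 2 ≤ ‖p.2‖ ^ 2) :
    ∀ p ∈ D012 q (Ω₁ ∪ Ω₂), c * ‖p.1‖ ^ 2 ≤ ‖p.2‖ ^ 2 := by
  have hq2 : (2:ℝ) ≤ q := by exact_mod_cast hq
  have hq0 : (0:ℝ) < q := by linarith
  intro p hp
  apply ineq_of_test _ hp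
  intro φ hφ
  have hχ' : ContDiff ℝ ((⊤ : ℕ∞) : WithTop ℕ∞) (fun x => 1 - χ x) := contDiff_const.sub hχ
  have t1 := isTest_cut h2 hχ hχ0 hφ
  have hφ' : IsTest (Ω₂ ∪ Ω₁) φ := by rwa [union_comm]
  have t2 := isTest_cut h1 hχ' (fun x hx => by rw [hχ1 x hx, sub_self]) hφ'
  have e1 := hc1 _ (pairOf_mem (q := q) t1)
  have e2 := hc2 _ (pairOf_mem (q := q) t2)
  rw [norm_snd_sq, norm_fst_sq] at e1 e2 ⊢
  have hgrad : ∫ x, ‖fderiv ℝ φ x‖ ^ 2 = (∫ x, ‖fderiv ℝ (fun x => χ x * φ x) x‖ ^ 2) +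
      ∫ x, ‖fderiv ℝ (fun x => (1 - χ x) * φ x) x‖ ^ 2 := by
    rw [← integral_add (integrable_fderiv_sq t1) (integrable_fderiv_sq t2)]
    congr 1
    ext x
    rcases split_pointwise h1 h2 hχ1 hχ0 hφ x with ⟨ha, hb⟩ | ⟨ha, hb⟩
    · have ha' : fderiv ℝ φ x = fderiv ℝ (fun x => χ x * φ x) x := ha.fderiv_eq
      have hb' : fderiv ℝ (fun x => (1 - χ x) * φ x) x = 0 := by
        rw [hb.fderiv_eq, fderiv_fun_const, Pi.zero_apply]
      rw [hb', norm_zero, ha']
      ring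
    · have ha' : fderiv ℝ φ x = fderiv ℝ (fun x => (1 - χ x) * φ x) x := ha.fderiv_eq
      have hb' : fderiv ℝ (fun x => χ x * φ x) x = 0 := by
        rw [hb.fderiv_eq, fderiv_fun_const, Pi.zero_apply]
      rw [hb', norm_zero, ha']
      ring
  have hfun : ∫ x, |φ x| ^ (q:ℝ) = (∫ x, |χ x * φ x| ^ (q:ℝ)) + ∫ x, |(1 - χ x) * φ x| ^ (q:ℝ) := by
    rw [← integral_add (integrable_test_rpow t1 hq0) (integrable_test_rpow t2 hq0)]
    congr 1
    ext x
    rcases split_pointwise h1 h2 hχ1 hχ0 hφ x with ⟨ha, hb⟩ | ⟨ha, hb⟩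
    · have ha' : φ x = χ x * φ x := ha.eq_of_nhds
      have hb' : (1 - χ x) * φ x = 0 := hb.eq_of_nhds
      rw [hb', ← ha', abs_zero, Real.zero_rpow hq0.ne', add_zero]
    · have ha' : φ x = (1 - χ x) * φ x := ha.eq_of_nhds
      have hb' : χ x * φ x = 0 := hb.eq_of_nhds
      rw [hb', ← ha', abs_zero, Real.zero_rpow hq0.ne', zero_add]
  rw [hgrad, hfun]
  set A := ∫ x, |χ x * φ x| ^ (q:ℝ)
  set B := ∫ x, |(1 - χ x) * φ x| ^ (q:ℝ)
  have hA : 0 ≤ A := integral_nonneg fun x => by positivity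
  have hB : 0 ≤ B := integral_nonneg fun x => by positivity
  have hAB : (A + B) ^ ((2:ℝ) / q) ≤ A ^ ((2:ℝ) / q) + B ^ ((2:ℝ) / q) := by
    apply Real.rpow_add_le_add_rpow hA hB (by positivity)
    rw [div_le_one hq0]
    exact hq2
  calc c * (A + B) ^ ((2:ℝ) / q) ≤ c * (A ^ ((2:ℝ) / q) + B ^ ((2:ℝ) / q)) := by gcongr
    _ = c * A ^ ((2:ℝ) / q) + c * B ^ ((2:ℝ) / q) := by ring
    _ ≤ _ := add_le_add e1 e2

theorem zero_on {Ω₁ Ω₂ : Set (EuclideanSpace ℝ (Fin N))} (h1 : MeasurableSet Ω₁)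
    (hd : Disjoint Ω₁ Ω₂) {p : Pairs N q} (hp : p ∈ D012 q Ω₂) :
    ∀ᵐ x ∂volume, x ∈ Ω₁ → p.1 x = 0 := by
  have key : LpToLpRestrictCLM (EuclideanSpace ℝ (Fin N)) ℝ ℝ volume (q : ℝ≥0∞) Ω₁ p.1 = 0 := by
    apply D012_induction (P := fun p : Pairs N q =>
      LpToLpRestrictCLM (EuclideanSpace ℝ (Fin N)) ℝ ℝ volume (q : ℝ≥0∞) Ω₁ p.1 = 0) _ _ hp
    · apply isClosed_eq _ continuous_const
      exact (ContinuousLinearMap.continuous _).comp continuous_fst
    · intro φ hφ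
      rw [Lp.eq_zero_iff_ae_eq_zero]
      have e1 := LpToLpRestrictCLM_coeFn (μ := (volume : Measure (EuclideanSpace ℝ (Fin N))))
        (p := (q : ℝ≥0∞)) ℝ Ω₁ (pairOf q hφ).1
      have e2 : ∀ᵐ x ∂(volume.restrict Ω₁), (pairOf q hφ).1 x = φ x :=
        ae_restrict_of_ae (MemLp.coeFn_toLp (memLp_test hφ q))
      have e3 : ∀ᵐ x ∂(volume.restrict Ω₁), φ x = 0 := by
        rw [ae_restrict_iff' h1]
        refine Eventually.of_forall fun x hx => ?_
        by_contra hne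
        exact (disjoint_left.mp hd hx) (hφ.2.2 (subset_tsupport φ hne))
      filter_upwards [e1, e2, e3] with x a1 a2 a3
      rw [a1, a2, a3, Pi.zero_apply]
  have e1 := LpToLpRestrictCLM_coeFn (μ := (volume : Measure (EuclideanSpace ℝ (Fin N))))
    (p := (q : ℝ≥0∞)) ℝ Ω₁ p.1
  rw [key] at e1
  have e4 : ∀ᵐ x ∂(volume.restrict Ω₁), p.1 x = 0 := by
    filter_upwards [e1, Lp.coeFn_zero ℝ (q : ℝ≥0∞) (volume.restrict Ω₁)] with x a1 a2
    rw [← a1, a2, Pi.zero_apply]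
  rwa [ae_restrict_iff' h1] at e4

theorem inner_zero_on {Ω₁ Ω₂ : Set (EuclideanSpace ℝ (Fin N))} (h1 : IsOpen Ω₁)
    (hd : Disjoint Ω₁ Ω₂) {p : Pairs N q} (hp : p ∈ D012 q Ω₂) {η : EuclideanSpace ℝ (Fin N) → ℝ}
    (hη : IsTest Ω₁ η) : inner ℝ p.2 (pairOf q hη).2 = 0 := by
  apply D012_induction (P := fun p : Pairs N q => inner ℝ p.2 (pairOf q hη).2 = 0) _ _ hp
  · exact isClosed_eq (by fun_prop) continuous_const
  · intro φ hφ
    rw [L2.inner_def]
    have : (fun x => inner ℝ ((pairOf q hφ).2 x) ((pairOf q hη).2 x)) =ᵐ[volume] fun _ => (0:ℝ) := by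
      filter_upwards [MemLp.coeFn_toLp (memLp_grad hφ 2), MemLp.coeFn_toLp (memLp_grad hη 2)] with x a1 a2
      have b1 : (pairOf q hφ).2 x = gradient φ x := a1
      have b2 : (pairOf q hη).2 x = gradient η x := a2
      rw [b1, b2]
      by_cases hx : x ∈ Ω₁
      · have h3 : φ =ᶠ[𝓝 x] fun _ => (0:ℝ) := by
          filter_upwards [h1.mem_nhds hx] with y hy
          by_contra hne
          exact (disjoint_left.mp hd hy) (hφ.2.2 (subset_tsupport φ hne))
        have h4 : gradient φ x = 0 := by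
          rw [gradient, h3.fderiv_eq]
          simp
        rw [h4, inner_zero_left]
      · have h3 : η =ᶠ[𝓝 x] 0 := notMem_tsupport_iff_eventuallyEq.mp (fun h => hx (hη.2.2 h))
        have h4 : gradient η x = 0 := by
          rw [gradient, h3.fderiv_eq]
          simp
        rw [h4, inner_zero_right]
    rw [integral_congr_ae this]
    simp

/-- a minimiser on one component is an eigenfunction of the union -/
theorem eigenpair_union {Ω₁ Ω₂ : Set (EuclideanSpace ℝ (Fin N))} (h1 : IsOpen Ω₁) (h2 : IsOpen Ω₂)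
    (hd : Disjoint Ω₁ Ω₂) (hq : 1 < q)
    {χ : EuclideanSpace ℝ (Fin N) → ℝ} (hχ : ContDiff ℝ ((⊤ : ℕ∞) : WithTop ℕ∞) χ)
    (hχ1 : ∀ x ∈ Ω₁, χ x = 1) (hχ0 : ∀ x ∈ Ω₂, χ x = 0)
    {p : Pairs N q} (hp : p ∈ D012 q Ω₂) (hp1 : ‖p.1‖ = 1) (hp2 : ‖p.2‖ ^ 2 = l1 q Ω₂) :
    IsEigenpair q (Ω₁ ∪ Ω₂) (l1 q Ω₂) p := by
  have hq1 : (1:ℝ) < q := by exact_mod_cast hq
  refine ⟨D012_mono subset_union_right hp, ?_, ?_⟩
  · intro h0
    rw [h0, norm_zero] at hp1
    norm_num at hp1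
  intro ψ hψ
  rw [hp1, Real.one_rpow, mul_one]
  have hχ' : ContDiff ℝ ((⊤ : ℕ∞) : WithTop ℕ∞) (fun x => 1 - χ x) := contDiff_const.sub hχ
  have t1 := isTest_cut h2 hχ hχ0 hψ
  have hψ' : IsTest (Ω₂ ∪ Ω₁) ψ := by rwa [union_comm]
  have t2 := isTest_cut h1 hχ' (fun x hx => by rw [hχ1 x hx, sub_self]) hψ'
  have el := euler_lagrange hq hp1 t2 (Eventually.of_forall fun t => by
    rw [hp2]
    have := l1_ineq (D012_add hp (D012_smul t (pairOf_mem (q := q) t2)))
    exact this)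
  have hinner : ∀ {η : EuclideanSpace ℝ (Fin N) → ℝ} {Ω' : Set (EuclideanSpace ℝ (Fin N))}
      (hη : IsTest Ω' η), inner ℝ p.2 (pairOf q hη).2 = ∫ x, inner ℝ (p.2 x) (gradient η x) := by
    intro η Ω' hη
    rw [L2.inner_def]
    apply integral_congr_ae
    filter_upwards [MemLp.coeFn_toLp (memLp_grad hη 2)] with x e3
    have e4 : (pairOf q hη).2 x = gradient η x := e3
    rw [e4]
  have hsum : pairOf q hψ = pairOf q t1 + pairOf q t2 := by
    apply Prod.ext
    · have : (pairOf q t1 + pairOf q t2).1 = ((memLp_test t1 q).add (memLp_test t2 q)).toLp _ :=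
        (MemLp.toLp_add (memLp_test t1 q) (memLp_test t2 q)).symm
      rw [this]
      change (memLp_test hψ q).toLp ψ = _
      congr 1
      ext x
      simp only [Pi.add_apply]
      ring
    · have : (pairOf q t1 + pairOf q t2).2 = ((memLp_grad t1 2).add (memLp_grad t2 2)).toLp _ :=
        (MemLp.toLp_add (memLp_grad t1 2) (memLp_grad t2 2)).symm
      rw [this]
      change (memLp_grad hψ 2).toLp (gradient ψ) = _
      congr 1
      have t1' : IsTest (Ω₁ ∪ Ω₂) (fun x => χ x * ψ x) := isTest_mono subset_union_left t1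
      have t2' : IsTest (Ω₁ ∪ Ω₂) (fun x => (1 - χ x) * ψ x) := isTest_mono subset_union_right t2
      have h5 := gradient_add' t1' t2'
      have h6 : (fun x => χ x * ψ x + (1 - χ x) * ψ x) = ψ := by ext x; ring
      rw [h6] at h5
      rw [h5]
      rfl
  have hz := inner_zero_on h1 hd hp t1
  have e5 : ∫ x, inner ℝ (p.2 x) (gradient ψ x) =
      ∫ x, inner ℝ (p.2 x) (gradient (fun x => (1 - χ x) * ψ x) x) := by
    rw [← hinner hψ, ← hinner t2, hsum, Prod.snd_add, inner_add_right, hz, zero_add]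
  have e6 : ∫ x, |p.1 x| ^ ((q : ℝ) - 2) * p.1 x * ψ x =
      ∫ x, |p.1 x| ^ ((q : ℝ) - 2) * p.1 x * ((1 - χ x) * ψ x) := by
    apply integral_congr_ae
    filter_upwards [zero_on h1.measurableSet hd hp] with x hx
    by_cases hx1 : x ∈ Ω₁
    · rw [hx hx1]; simp
    · by_cases hx2 : x ∈ Ω₂
      · rw [hχ0 x hx2]; ring
      · have : ψ x = 0 := by
          by_contra hne
          rcases hψ.2.2 (subset_tsupport ψ hne) with h | h
          · exact hx1 h
          · exact hx2 h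
        rw [this]; simp
  rw [e5, e6, el, hp2]

/-! ### the lower bound for the second Lusternik-Schnirelman value -/

theorem pos_neg_rpow (f : Lp ℝ (q : ℝ≥0∞) (volume : Measure (EuclideanSpace ℝ (Fin N)))) :
    ‖Lp.posPart f‖ ^ (q:ℝ) + ‖Lp.negPart f‖ ^ (q:ℝ) = ‖f‖ ^ (q:ℝ) := by
  have hq : (1:ℝ) ≤ q := by exact_mod_cast one_le_q (q := q)
  have hq0 : (q:ℝ) ≠ 0 := by linarith
  rw [norm_Lp_rpow, norm_Lp_rpow, norm_Lp_rpow,
    ← integral_add (integrable_abs_rpow _) (integrable_abs_rpow _)]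
  apply integral_congr_ae
  filter_upwards [Lp.coeFn_posPart f, Lp.coeFn_negPart_eq_max f] with x h1 h2
  rw [h1, h2]
  rcases le_total (f x) 0 with h | h
  · rw [max_eq_right h, max_eq_left (by linarith), abs_zero, Real.zero_rpow hq0, zero_add, abs_neg]
  · rw [max_eq_left h, max_eq_right (by linarith), abs_zero, Real.zero_rpow hq0, add_zero]

/-- A set of genus at least two in the sphere contains a point of energy at least
`2^{1-2/q} c`. -/
theorem exists_large {Ω : Set (EuclideanSpace ℝ (Fin N))} (hN : 2 ≤ N)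
    (hΩ : Bornology.IsBounded Ω) (hq' : ((N : ℝ) - 2) * q < 2 * N) {c : ℝ}
    (hc : ∀ p ∈ D012 q Ω, c * ‖p.1‖ ^ 2 ≤ ‖p.2‖ ^ 2) {F : Set (FP N)}
    (hF : F ⊆ Sphere q Ω) (hg : (2 : ℕ∞) ≤ genus F) :
    ∃ p ∈ F, (2:ℝ) ^ (1 - 2 / (q:ℝ)) * c ≤ energy p.2 := by
  have hq : (1:ℝ) ≤ q := by exact_mod_cast one_le_q (q := q)
  have hq0 : (0:ℝ) < q := by linarith
  by_contra hcon
  push Not at hcon
  set g : Pairs N q → ℝ := fun p => ‖Lp.posPart p.1‖ - ‖Lp.negPart p.1‖ with hgdef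
  have hgc : Continuous g := by
    have h1 := (Lp.continuous_posPart (p := (q : ℝ≥0∞)) (μ := (volume : Measure (EuclideanSpace ℝ (Fin N)))))
    have h2 := (Lp.continuous_negPart (p := (q : ℝ≥0∞)) (μ := (volume : Measure (EuclideanSpace ℝ (Fin N)))))
    have h3 := h1.comp (continuous_fst (X := Lp ℝ (q : ℝ≥0∞) (volume : Measure (EuclideanSpace ℝ (Fin N))))
      (Y := Lp (EuclideanSpace ℝ (Fin N)) 2 (volume : Measure (EuclideanSpace ℝ (Fin N)))))
    have h4 := h2.comp (continuous_fst (X := Lp ℝ (q : ℝ≥0∞) (volume : Measure (EuclideanSpace ℝ (Fin N))))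
      (Y := Lp (EuclideanSpace ℝ (Fin N)) 2 (volume : Measure (EuclideanSpace ℝ (Fin N)))))
    exact h3.norm.sub h4.norm
  have hgodd : ∀ p : Pairs N q, g (-p) = - g p := by
    intro p
    simp only [hgdef, Prod.fst_neg]
    have h1 : Lp.posPart (-p.1) = Lp.negPart p.1 := rfl
    have h2 : Lp.negPart (-p.1) = Lp.posPart p.1 := by
      change Lp.posPart (- -p.1) = _
      rw [neg_neg]
    rw [h1, h2]
    ring
  have hgne : ∀ p ∈ F, g (cls q p) ≠ 0 := by
    intro p hp h0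
    obtain ⟨hm, hn, he, _, _⟩ := cls_mem (q := q) hN hΩ hq' (hF hp).1
    rw [(hF hp).2] at hn
    have hs : ‖Lp.posPart (cls q p).1‖ = ‖Lp.negPart (cls q p).1‖ := by
      simp only [hgdef] at h0
      linarith
    have h1 := pos_neg_rpow (cls q p).1
    have h2 := pos_neg_ineq hc hm
    rw [hn, Real.one_rpow, ← hs] at h1
    rw [← hs] at h2
    set s := ‖Lp.posPart (cls q p).1‖ with hsdef
    have hs0 : 0 ≤ s := norm_nonneg _
    have h3 : s ^ (q:ℝ) = 1 / 2 := by linarith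
    have h4 : s ^ 2 = (1 / 2 : ℝ) ^ (2 / (q:ℝ)) := by
      rw [← h3, ← Real.rpow_mul hs0]
      have : (q:ℝ) * (2 / q) = (2:ℕ) := by field_simp; norm_num
      rw [this, Real.rpow_natCast]
    have h5 : (2:ℝ) ^ (1 - 2 / (q:ℝ)) = s ^ 2 + s ^ 2 := by
      rw [h4, Real.rpow_sub (by norm_num), Real.rpow_one, one_div, Real.inv_rpow (by norm_num)]
      ring
    have h6 := hcon p hp
    rw [h5, ← he] at h6
    linarith
  have hodd : HasOddMap F 1 := by
    refine ⟨fun p => (g (cls q p) / |g (cls q p)|) • EuclideanSpace.single (0 : Fin 1) (1:ℝ), ?_, ?_, ?_⟩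
    · intro s hs p hp hsp
      have h1 := cls_tendsto (q := q) hN hΩ hq' (fun n => (hF (hs n)).1) (hF hp).1 hsp
      have h2 : Tendsto (fun n => g (cls q (s n))) atTop (𝓝 (g (cls q p))) :=
        (hgc.tendsto _).comp h1
      exact (h2.div h2.abs (abs_ne_zero.mpr (hgne p hp))).smul_const _
    · intro p hp
      rw [norm_smul, norm_div, Real.norm_eq_abs, Real.norm_eq_abs, abs_abs,
        div_self (abs_ne_zero.mpr (hgne p hp))]
      simp
    · intro p hp
      obtain ⟨_, _, _, hu, hG⟩ := cls_mem (q := q) hN hΩ hq' (hF hp).1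
      simp only
      rw [cls_neg hu hG, hgodd, abs_neg, neg_div, neg_smul]
  have h1 : genus F ≤ 1 := sInf_le ⟨1, by norm_num, le_rfl, hodd⟩
  have h2 := hg.trans h1
  norm_num at h2

theorem result_nn (N : ℕ) (hN : 2 ≤ N) (q : ℝ≥0) [Fact (1 ≤ (q : ℝ≥0∞))] (hq : 2 < q)
    (hq' : ((N : ℝ) - 2) * q < 2 * N) :
    ∃ Ω : Set (EuclideanSpace ℝ (Fin N)), IsOpen Ω ∧ Bornology.IsBounded Ω ∧
      ∃ lam ∈ Spec q Ω, lam ∉ SpecLS q Ω := by
  have hq2 : (2:ℝ) < q := by exact_mod_cast hq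
  have hq0 : (0:ℝ) < q := by linarith
  have hN2 : (2:ℝ) ≤ N := by exact_mod_cast hN
  -- the scaling exponent
  set α : ℝ := (N : ℝ) - 2 - 2 * N / q with hα
  have hαneg : α < 0 := by
    rw [hα, sub_neg, lt_div_iff₀ hq0]
    exact hq'
  set κ : ℝ := (2:ℝ) ^ ((1 - 2 / (q:ℝ)) / 2) with hκ
  have h2q : 0 < 1 - 2 / (q:ℝ) := by
    rw [sub_pos, div_lt_one hq0]; exact hq2
  have hκ1 : 1 < κ := Real.one_lt_rpow (by norm_num) (by positivity)
  have hκ2 : κ < (2:ℝ) ^ (1 - 2 / (q:ℝ)) := by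
    apply Real.rpow_lt_rpow_of_exponent_lt (by norm_num)
    linarith
  set r : ℝ := κ ^ (1 / α) with hr
  have hr0 : 0 < r := by positivity
  have hr1 : r < 1 := by
    apply Real.rpow_lt_one_of_one_lt_of_neg hκ1
    exact one_div_neg.mpr hαneg
  have hrα : r ^ α = κ := by
    rw [hr, ← Real.rpow_mul (by positivity), one_div, inv_mul_cancel₀ hαneg.ne, Real.rpow_one]
  -- the two balls
  set a : EuclideanSpace ℝ (Fin N) := EuclideanSpace.single (⟨0, by omega⟩ : Fin N) (3:ℝ) with ha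
  have hna : ‖a‖ = 3 := by rw [ha]; simp
  set Ω₁ : Set (EuclideanSpace ℝ (Fin N)) := ball 0 1 with hΩ₁
  set Ω₂ : Set (EuclideanSpace ℝ (Fin N)) := ball a r with hΩ₂
  have o1 : IsOpen Ω₁ := isOpen_ball
  have o2 : IsOpen Ω₂ := isOpen_ball
  have n1 : Ω₁.Nonempty := ⟨0, mem_ball_self one_pos⟩
  have n2 : Ω₂.Nonempty := ⟨a, mem_ball_self hr0⟩
  have b1 : Bornology.IsBounded Ω₁ := isBounded_ball
  have b2 : Bornology.IsBounded Ω₂ := isBounded_ball
  have hfar : ∀ x ∈ Ω₂, 2 ≤ ‖x‖ := by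
    intro x hx
    rw [hΩ₂, mem_ball, dist_eq_norm] at hx
    have := norm_sub_norm_le a x
    rw [norm_sub_rev] at this
    linarith
  have hd : Disjoint Ω₁ Ω₂ := by
    rw [disjoint_left]
    intro x hx hx2
    have := hfar x hx2
    rw [hΩ₁, mem_ball, dist_zero_right] at hx
    linarith
  -- cutoff
  let χ : ContDiffBump (0 : EuclideanSpace ℝ (Fin N)) := ⟨1, 2, by norm_num, by norm_num⟩
  have hχ : ContDiff ℝ ((⊤ : ℕ∞) : WithTop ℕ∞) (χ : EuclideanSpace ℝ (Fin N) → ℝ) := χ.contDiff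
  have hχ1 : ∀ x ∈ Ω₁, χ x = 1 := by
    intro x hx
    apply χ.one_of_mem_closedBall
    exact ball_subset_closedBall hx
  have hχ0 : ∀ x ∈ Ω₂, χ x = 0 := by
    intro x hx
    apply χ.zero_of_le_dist
    rw [dist_zero_right]
    exact hfar x hx
  -- first eigenvalues
  set L := l1 q Ω₁ with hL
  have hLpos : 0 < L := l1_pos hN o1 n1 b1 hq'
  have hL2 : l1 q Ω₂ = L * κ := by
    rw [l1_scale o2 n2 hr0 a, ← hα, hrα]
    congr 2
    ext x
    rw [mem_preimage, hΩ₂, hΩ₁, mem_ball, mem_ball, dist_eq_norm, add_sub_cancel_left, norm_smul,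
      Real.norm_eq_abs, abs_of_pos hr0, dist_zero_right, mul_lt_iff_lt_one_right hr0]
  have hcomp : ∀ p ∈ D012 q (Ω₁ ∪ Ω₂), L * ‖p.1‖ ^ 2 ≤ ‖p.2‖ ^ 2 := by
    apply union_ineq o1 o2 hχ hχ1 hχ0 hq.le hLpos.le (fun p hp => l1_ineq hp)
    intro p hp
    have h1 := l1_ineq hp
    rw [hL2] at h1
    have h2 : L * ‖p.1‖ ^ 2 ≤ L * κ * ‖p.1‖ ^ 2 := by
      gcongr
      nlinarith
    linarith
  obtain ⟨p₂, hp₂, hp₂1, hp₂2⟩ := exists_minimizer (q := q) hN o2 n2 b2 hq'
  obtain ⟨p₁, hp₁, hp₁1, hp₁2⟩ := exists_minimizer (q := q) hN o1 n1 b1 hq'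
  have hlam : L < L * κ := by nlinarith
  have hlam2 : L * κ < (2:ℝ) ^ (1 - 2 / (q:ℝ)) * L := by nlinarith
  refine ⟨Ω₁ ∪ Ω₂, o1.union o2, b1.union b2, L * κ, ?_, ?_⟩
  · refine ⟨_, isEig_of (q := q) hN (b1.union b2) (P := p₂) ?_⟩
    rw [← hL2]
    exact eigenpair_union o1 o2 hd (lt_trans (by norm_num) hq) hχ hχ1 hχ0 hp₂ hp₂1 hp₂2
  · rintro ⟨k, hk, hlk⟩
    set S := {m : ℝ | ∃ F : Set (FP N), IsCompactD F ∧ F.Nonempty ∧ F ⊆ Sphere q (Ω₁ ∪ Ω₂) ∧
      (∀ p ∈ F, -p ∈ F) ∧ (k : ℕ∞) ≤ genus F ∧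
      IsGreatest ((fun p => energy p.2) '' F) m} with hS
    have hSb : BddBelow S := by
      refine ⟨0, ?_⟩
      rintro m ⟨F, _, _, _, _, _, hm⟩
      obtain ⟨p, _, rfl⟩ := hm.1
      exact integral_nonneg fun x => by positivity
    have hval : lamLS q (Ω₁ ∪ Ω₂) k = sInf S := rfl
    rw [hval] at hlk
    rcases Nat.lt_or_ge 1 k with hk2 | hk1
    · -- k ≥ 2
      rcases S.eq_empty_or_nonempty with he | hne
      · rw [he, Real.sInf_empty] at hlk
        have : 0 < L * κ := by positivity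
        linarith
      · have h3 : (2:ℝ) ^ (1 - 2 / (q:ℝ)) * L ≤ sInf S := by
          apply le_csInf hne
          rintro m ⟨F, _, _, hFS, _, hFg, hm⟩
          have hg2 : (2 : ℕ∞) ≤ genus F := by
            refine le_trans ?_ hFg
            exact_mod_cast hk2
          obtain ⟨p, hpF, hp⟩ := exists_large hN (b1.union b2) hq' hcomp hFS hg2
          exact hp.trans (hm.2 ⟨p, hpF, rfl⟩)
        linarith
    · -- k = 1
      have hk1' : k = 1 := le_antisymm hk1 hk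
      have h3 : sInf S ≤ L := by
        apply csInf_le hSb
        have hp₁' : p₁ ∈ D012 q (Ω₁ ∪ Ω₂) := D012_mono subset_union_left hp₁
        set P : FP N := ((p₁.1 : EuclideanSpace ℝ (Fin N) → ℝ),
          (p₁.2 : EuclideanSpace ℝ (Fin N) → EuclideanSpace ℝ (Fin N))) with hP
        have hPD : IsD (Ω₁ ∪ Ω₂) P := isD_of_mem hN (b1.union b2) hp₁'
        have hPn : normLq q P.1 = 1 := by rw [← hp₁1, ← normLq_coe]
        have hPe : energy P.2 = L := (energy_coe p₁.2).trans hp₁2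
        have hPneg : energy (-P).2 = L := by
          rw [← hPe, energy, energy]
          congr 1
          ext x
          rw [Prod.snd_neg, Pi.neg_apply, norm_neg]
        refine ⟨{P, -P}, ?_, ⟨P, by simp⟩, ?_, ?_, ?_, ?_⟩
        · intro s hs
          have hz : ∀ p : FP N, ∀ k : ℕ → ℕ, (∀ n, s (k n) = p) → ConvD (fun n => s (k n)) p := by
            intro p k hk
            have e : (fun n : ℕ => energy fun x => (s (k n)).2 x - p.2 x) = fun _ => 0 := by
              ext n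
              rw [hk n, energy]
              simp
            rw [ConvD, e]
            exact tendsto_const_nhds
          by_cases hfr : ∃ᶠ n in atTop, s n = P
          · obtain ⟨k, hk1, hk2⟩ := extraction_of_frequently_atTop hfr
            exact ⟨P, by simp, k, hk1, hz P k hk2⟩
          · have hev : ∀ᶠ n in atTop, s n = -P := by
              rw [not_frequently] at hfr
              filter_upwards [hfr] with n hn
              rcases hs n with h | h
              · exact absurd h hn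
              · exact h
            obtain ⟨k, hk1, hk2⟩ := extraction_of_frequently_atTop hev.frequently
            exact ⟨-P, by simp, k, hk1, hz (-P) k hk2⟩
        · rintro p (rfl | rfl)
          · exact ⟨hPD, hPn⟩
          · refine ⟨?_, ?_⟩
            · obtain ⟨a1, a2, φ, hφ, a3, a4⟩ := hPD
              refine ⟨a1.neg, a2.neg, fun n x => - φ n x, fun n => isTest_neg (hφ n), ?_, ?_⟩
              · refine a3.congr fun n => ?_
                rw [← eLpNorm_neg]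
                congr 1
                ext x
                simp only [Pi.neg_apply, Prod.fst_neg]
                ring
              · refine a4.congr fun n => ?_
                rw [← eLpNorm_neg]
                congr 1
                ext1 x
                have : gradient (fun x => - φ n x) x = - gradient (φ n) x := by
                  rw [gradient, gradient, fderiv_neg', map_neg]
                simp only [Pi.neg_apply, Prod.snd_neg, this]
                abel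
            · rw [← hPn, normLq, normLq]
              congr 1
              congr 1
              ext x
              rw [Prod.fst_neg, Pi.neg_apply, abs_neg]
        · rintro p (rfl | rfl)
          · simp
          · simp
        · rw [hk1']
          apply le_sInf
          rintro b ⟨j, rfl, hj, _⟩
          exact_mod_cast hj
        · constructor
          · exact ⟨P, by simp, hPe⟩
          · rintro m ⟨p, hp, rfl⟩
            rcases hp with rfl | rfl
            · exact hPe.le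
            · exact hPneg.le
      linarith

/-- **Main theorem.** For every `N ≥ 2` and every `2 < q < 2^*` there is a bounded open set with a
`q`-eigenvalue which is not a Lusternik-Schnirelman value. -/
theorem result (N : ℕ) (hN : 2 ≤ N) (q : ℝ) (hq : 2 < q) (hq' : ((N : ℝ) - 2) * q < 2 * N) :
    ∃ Ω : Set (EuclideanSpace ℝ (Fin N)), IsOpen Ω ∧ Bornology.IsBounded Ω ∧
      ∃ lam ∈ Spec q Ω, lam ∉ SpecLS q Ω := by
  lift q to ℝ≥0 using (by linarith) with q'
  have hq2 : 2 < q' := by exact_mod_cast hq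
  have _ : Fact (1 ≤ (q' : ℝ≥0∞)) := ⟨by
    have : (1 : ℝ≥0) ≤ q' := le_trans (by norm_num) hq2.le
    exact_mod_cast this⟩
  exact result_nn N hN q' hq2 hq'

end Pool.Agent.Results.MP_eb4995_an.LSNotAll
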